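import Pool.Agent.helper70.KU.Asm

/-!
# Unimodality of `[6n]! [n]! / ([3n]! [2n]!^2)` for every `n ≥ 2`
-/

namespace Pool.Agent.Results.MP_c048c3_co.Unimodal

open Finset Polynomial C048

theorem mono_up (n : ℕ) (hn : 2 ≤ n) {i j : ℕ} (hij : i ≤ j) (hj : j ≤ 5 * n ^ 2) :
    a n i ≤ a n j := by
  induction j with
  | zero =>
    have : i = 0 := by omega
    subst this; exact le_rfl
  | succ j ih =>
    rcases Nat.lt_or_ge j i with h | h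
    · have : i = j + 1 := by omega
      subst this; exact le_rfl
    · exact le_trans (ih h (by omega)) (all_n n hn j hj)

theorem mono_down (n : ℕ) (hn : 2 ≤ n) {i j : ℕ} (hi : 5 * n ^ 2 ≤ i) (hij : i ≤ j) :
    a n j ≤ a n i := by
  rcases Nat.lt_or_ge (10 * n ^ 2) j with h | h
  · rw [a_eq_zero n j h]; exact Nat.zero_le _
  · rw [← a_symm n j h, ← a_symm n i (by omega)]
    exact mono_up n hn (by omega) (by omega)

theorem result (n : ℕ) (hn : 2 ≤ n) :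
    ∃ P : ℤ[X],
      P * ((∏ i ∈ Icc 1 (3 * n), (1 - X ^ i)) * (∏ i ∈ Icc 1 (2 * n), (1 - X ^ i)) ^ 2)
        = (∏ i ∈ Icc 1 (6 * n), (1 - X ^ i)) * ∏ i ∈ Icc 1 n, (1 - X ^ i) ∧
      (∀ Q : ℤ[X],
        Q * ((∏ i ∈ Icc 1 (3 * n), (1 - X ^ i)) * (∏ i ∈ Icc 1 (2 * n), (1 - X ^ i)) ^ 2)
          = (∏ i ∈ Icc 1 (6 * n), (1 - X ^ i)) * ∏ i ∈ Icc 1 n, (1 - X ^ i) → Q = P) ∧
      ∃ k ≤ P.natDegree,
        (∀ i j, i ≤ j → j ≤ k → P.coeff i ≤ P.coeff j) ∧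
        (∀ i j, k ≤ i → i ≤ j → P.coeff j ≤ P.coeff i) := by
  have hid : C048.toZ (PN n) * ((∏ i ∈ Icc 1 (3 * n), (1 - X ^ i))
      * (∏ i ∈ Icc 1 (2 * n), (1 - X ^ i)) ^ 2)
        = (∏ i ∈ Icc 1 (6 * n), (1 - X ^ i)) * ∏ i ∈ Icc 1 n, (1 - X ^ i) := by
    rw [← qfac_eq_prod, ← qfac_eq_prod, ← qfac_eq_prod, ← qfac_eq_prod]
    exact PN_identity n
  have hne : ((∏ i ∈ Icc 1 (3 * n), (1 - X ^ i))
      * (∏ i ∈ Icc 1 (2 * n), (1 - X ^ i)) ^ 2) ≠ (0 : ℤ[X]) := by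
    rw [← qfac_eq_prod, ← qfac_eq_prod]
    exact mul_ne_zero (qfac_ne_zero _) (pow_ne_zero _ (qfac_ne_zero _))
  have hcoeff : ∀ k, (C048.toZ (PN n)).coeff k = (a n k : ℤ) := by
    intro k
    simp [C048.toZ, a]
  refine ⟨C048.toZ (PN n), hid, ?_, 5 * n ^ 2, ?_, ?_, ?_⟩
  · intro Q hQ
    exact mul_right_cancel₀ hne (hQ.trans hid.symm)
  · have hm : (C048.toZ (PN n)).natDegree = 10 * n ^ 2 := by
      rw [C048.toZ, natDegree_map_eq_of_injective (Nat.cast_injective (R := ℤ)), natDegree_PN]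
    rw [hm]; omega
  · intro i j hij hj
    rw [hcoeff, hcoeff]
    exact_mod_cast mono_up n hn hij hj
  · intro i j hi hij
    rw [hcoeff, hcoeff]
    exact_mod_cast mono_down n hn hi hij

end Pool.Agent.Results.MP_c048c3_co.Unimodal
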